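import Pool.Agent.Helper36.NO.P1a

/-!
# P1: the characters `κ_a` are `θ₀ ψ_a`
-/

set_option autoImplicit false
open scoped BigOperators MonoidAlgebra
open Classical

set_option linter.unusedSectionVars false

namespace Pool.Agent.Helper36.NO

open Pool.Agent.Helper36.NB Pool.Agent.Helper44.S3 Pool.Agent.Helper32.ND
open Pool.Agent.Helper32.NO

variable {O : ValuationSubring ℂ} {G : Type} [Group G] [Fintype G]

theorem isChar_norm {N : Type} [Group N] [Finite N] {η : N → ℂ} (hη : IsChar η) (u : N) (d : ℕ)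
    (h1 : η 1 = d) : ‖η u‖ ≤ d := by
  have hN : orderOf u ≠ 0 := (orderOf_pos u).ne'
  have hω := Complex.isPrimitiveRoot_exp (orderOf u) hN
  set ω := Complex.exp (2 * Real.pi * Complex.I / (orderOf u : ℂ)) with hωd
  obtain ⟨m, hm⟩ := E1aux.char_spectral hη u ω hω
  have h0 := hm 0
  rw [pow_zero, h1] at h0
  have h3 := hm 1
  rw [pow_one] at h3
  have hnorm : ‖ω‖ = 1 := hω.norm'_eq_one hN
  have h4 : ((∑ j ∈ Finset.range (orderOf u), m j : ℕ) : ℂ) = d := by
    rw [h0]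
    push_cast
    refine Finset.sum_congr rfl fun j _ => ?_
    rw [pow_zero, mul_one]
  have h5 : (∑ j ∈ Finset.range (orderOf u), m j) = d := by exact_mod_cast h4
  rw [h3]
  refine (norm_sum_le _ _).trans ?_
  rw [← h5]
  push_cast
  refine le_of_eq (Finset.sum_congr rfl fun j _ => ?_)
  rw [norm_mul, pow_one, norm_pow, hnorm, one_pow, mul_one, Complex.norm_natCast]

theorem sum_sq_of_card (h2 : (2 : O) ∈ IsLocalRing.maximalIdeal O)
    (e : MonoidAlgebra O G) (he : e * e = e) (hec : ∀ a, a * e = e * a)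
    (S : SimpleQuot (toK O G e)) (c : ℂ)
    (hc : (Nat.card G : ℂ) * (e.coeff 1 : ℂ) = (S.n : ℂ) ^ 2 * c)
    (j : MonoidAlgebra O G) (hj : j * j = j) (hje : j * e = j)
    (hj1 : (S.ρ (toK O G j)).rank = 1) (I : IrrData G) :
    ∑ a, I.chi a (toC O G j) ^ 2 = c := by
  have hn : (S.n : ℂ) ^ 2 ≠ 0 := pow_ne_zero _ (Nat.cast_ne_zero.2 S.pos.ne')
  have hce : ∀ a, I.chi a (toC O G e) = (S.n : ℂ) * I.chi a (toC O G j) := by
    intro a
    have h := trace_rank O e he hec S j hj hje hj1 e he he (TraceFun.ofChi O I a)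
    simp only [TraceFun.ofChi_apply] at h
    rw [h, S.one, Matrix.rank_one, Fintype.card_fin]
  have hCec : ∀ y, y * toC O G e = toC O G e * y := by
    apply E0aux.central_of_el
    intro g
    rw [← toC_el O g, ← map_mul, ← map_mul, hec]
  have hdj : ∀ a, (I.d a : ℂ) * I.chi a (toC O G j) =
      (S.n : ℂ) * I.chi a (toC O G j) ^ 2 := by
    intro a
    have h := E0aux.chi_mul_central I a (toC O G e) (toC O G j) hCec
    rw [← map_mul, ← hec, hje, hce] at h
    rw [h]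
    ring
  apply mul_left_cancel₀ hn
  rw [← hc, ← toC_apply, ← E0aux.regular I, Finset.mul_sum]
  symm
  refine Finset.sum_congr rfl fun a _ => ?_
  calc (I.d a : ℂ) * I.chi a (toC O G e) = (S.n : ℂ) * ((I.d a : ℂ) * I.chi a (toC O G j)) := by
        rw [hce]; ring
    _ = (S.n : ℂ) ^ 2 * I.chi a (toC O G j) ^ 2 := by rw [hdj]; ring

theorem exists_loc' (O : ValuationSubring ℂ) {G : Type} [Group G] [Fintype G]
    (i : MonoidAlgebra O G) (u : G)
    (b : MonoidAlgebra (resK O) (cent u)) (hb : IsBlock b)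
    (hib : res (cent u) (toK O G i) * b = res (cent u) (toK O G i)) (S : SimpleQuot b) :
    Nonempty (Loc O i u) := by
  obtain ⟨B, hBb, hBB, hBc⟩ := lift_central O b hb.2.1 hb.2.2.1
  subst hBb
  obtain ⟨j, hj, hjB, hj1⟩ := exists_rank_one O B hBB hBc S
  exact ⟨⟨B, hb, hBB, hBc, hib, S, j, hj, hjB, hj1⟩⟩

theorem zpow_conj {G : Type} [Group G] (g u v : G) (h : g * u * g⁻¹ = v) (w : G) :
    w ∈ Subgroup.zpowers u ↔ g * w * g⁻¹ ∈ Subgroup.zpowers v := by
  constructor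
  · rintro ⟨n, rfl⟩
    refine ⟨n, ?_⟩
    change v ^ n = g * u ^ n * g⁻¹
    rw [← h, conj_zpow]
  · rintro ⟨n, hn⟩
    refine ⟨n, ?_⟩
    change u ^ n = w
    have h1 : (g * u * g⁻¹) ^ n = g * w * g⁻¹ := by rw [h]; exact hn
    rw [conj_zpow] at h1
    exact mul_left_cancel (mul_right_cancel h1)

/-- P1: the characters `κ_a` are `θ₀ ψ_a` -/
theorem level (h2 : (2 : O) ∈ IsLocalRing.maximalIdeal O) {D : Subgroup G} {t : G}
    {e : MonoidAlgebra O G} {S : SimpleQuot (toK O G e)} {q : MonoidAlgebra (resK O) G}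
    (hL : Lev O D t e S q) (j : MonoidAlgebra O G) (hj : j * j = j) (hje : j * e = j)
    (hj1 : (S.ρ (toK O G j)).rank = 1) :
    ∃ i : MonoidAlgebra O G, i * i = i ∧ i * e = i ∧ Cen D i ∧ toK O G i = q ∧
      ∀ d : G, d ∈ D → d ≠ 1 → ∀ L : Loc O i d, Odd L.m ∧
        (∀ J : IrrData (cent d), ∑ b, J.chi b (toC O (cent d) L.j) ^ 2 =
          (Nat.card {c : G // c ∈ D ∧ c * d = d * c} : ℂ)) ∧
        ∀ I : IrrData G, ∀ a, ‖I.chi a (toC O G (el O d * i))‖ ≤
          L.m * ‖I.chi a (toC O G j)‖ := by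
  obtain ⟨hee, hec, her, hD2, tD, tt, tn, hcard, hqq, hqe, hqD, hqt, hlam, hloc⟩ := hL
  have hchar : CharP (resK O) 2 := resK_charP O h2
  -- lift to `O`
  obtain ⟨i, hiq, hi, hie, hσ⟩ := lift_sym O e hee hec q hqq hqe
  have hconjbij : ∀ u : G, Function.Bijective (fun h : G => u * h * u⁻¹) := by
    intro u
    refine ⟨fun x y hxy => ?_, fun y => ⟨u⁻¹ * y * u, by simp [mul_assoc]⟩⟩
    simpa using hxy
  have hiD : Cen D i := by
    intro u hu
    rw [comm_iff_conj, conj_eq_mapDomain]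
    apply hσ _ (hconjbij u)
    · left; intro x y; group
    · rw [← conj_eq_mapDomain, ← comm_iff_conj, hec]
    · rw [← conj_eq_mapDomain, ← comm_iff_conj]
      exact hqD u hu
  have hiψ : psi t i = i := by
    rw [psi_apply, psi_eq_mapDomain]
    apply hσ
    · refine ⟨fun x y hxy => ?_, fun y => ⟨(t⁻¹ * y * t)⁻¹, by simp [mul_assoc]⟩⟩
      simpa using hxy
    · right; intro x y; group
    · rw [← psi_eq_mapDomain, her, hec, mul_assoc, el_mul_el_inv, mul_one]
    · rw [← psi_eq_mapDomain, ← psi_apply]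
      exact hqt
  refine ⟨i, hi, hie, hiD, hiq, ?_⟩
  subst hiq
  intro d hd hd1 L
  have hLe : ∀ u : D, Nonempty {M : Loc O i (u : G) // ∀ h : (u : G) = d, h ▸ M = L} := by
    intro u
    by_cases h : (u : G) = d
    · subst h
      exact ⟨⟨L, fun _ => rfl⟩⟩
    · obtain ⟨b, hb, hib, ⟨Sb⟩⟩ := hloc.one (Subgroup.zpowers (u : G))
        ((Subgroup.zpowers_le).mpr u.2) (cent (u : G)) (cent_eq (u : G))
      obtain ⟨M⟩ := exists_loc' O i u b hb hib Sb
      exact ⟨⟨M, fun h' => absurd h' h⟩⟩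
  let Lf : ∀ u : D, Loc O i (u : G) := fun u => (hLe u).some.1
  have hLf : Lf ⟨d, hd⟩ = L := (hLe ⟨d, hd⟩).some.2 rfl
  obtain ⟨I₀⟩ := exists_irrData G
  have key : ∀ I : IrrData G, ∃ X : CountData D (Fin I.r) (tauL t tD) ⟨t * t, tt⟩,
      (∀ a, I.chi a (toC O G j) = X.d a) ∧
      (∀ a (u : D), X.κ a u = I.chi a (el ℂ (u : G) * toC O G i)) ∧
      ∀ u : D, u ≠ 1 → X.m u = (Lf u).m := by
    intro I
    refine exists_cd h2 e hee hec her hD2 S t tD tt j hj hje hj1 i hi hie hiD hiψ hlam Lf ?_ I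
      (sum_sq_of_card h2 e hee hec S _ hcard j hj hje hj1 I)
    intro u v g hg hgb
    obtain ⟨c, hc, hcu⟩ := hloc.fus (Subgroup.zpowers (u : G)) (Subgroup.zpowers (v : G))
      ((Subgroup.zpowers_le).mpr u.2) ((Subgroup.zpowers_le).mpr v.2) _ _ (cent_eq (u : G))
      (cent_eq (v : G)) _ _ (Lf u).blk (Lf v).blk (Lf u).hib (Lf v).hib g
      (zpow_conj g u v hg) hgb
    exact ⟨c, hc, by rw [hcu _ (Subgroup.mem_zpowers _), hg]⟩
  have hτ2 : ∀ u : D, tauL t tD (tauL t tD u) = (⟨t * t, tt⟩ : D)⁻¹ * u * ⟨t * t, tt⟩ := by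
    intro u
    apply Subtype.ext
    change t⁻¹ * (t⁻¹ * u * t) * t = (t * t)⁻¹ * u * (t * t)
    group
  have hτz : tauL t tD ⟨t * t, tt⟩ = ⟨t * t, tt⟩ := by
    apply Subtype.ext
    change t⁻¹ * (t * t) * t = t * t
    group
  have hdne : (⟨d, hd⟩ : D) ≠ 1 := fun h => hd1 (congrArg Subtype.val h)
  have hord : ∃ n : ℕ, orderOf d = 2 ^ n := orderOf_two hD2 hd
  have hid : el O d * i = i * el O d := hiD d hd
  have key2 : ∀ I : IrrData G, Odd L.m ∧
      (∑ a, I.chi a (toC O G (el O d * i)) * I.chi a (toC O G (el O d⁻¹ * i)) =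
        (L.m : ℂ) ^ 2 * (Nat.card {c : G // c ∈ D ∧ c * d = d * c} : ℂ)) ∧
      ∀ a, ‖I.chi a (toC O G (el O d * i))‖ ≤ L.m * ‖I.chi a (toC O G j)‖ := by
    intro I
    obtain ⟨X, hXd, hXκ, hXm⟩ := key I
    obtain ⟨J⟩ := exists_irrData D
    obtain ⟨a₀, hbar0, hd0, -, hne, hm, hc⟩ := count_odd hD2 (tauL t tD) ⟨t * t, tt⟩ hτ2 hτz X O h2
    obtain ⟨Γ, hinj, hsurj, hΓd, hκ, habs⟩ := count_bij hD2 (tauL t tD) ⟨t * t, tt⟩ X J a₀ hne hm hc
    have hmd : X.m ⟨d, hd⟩ = L.m := by rw [hXm _ hdne, hLf]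
    have hκd : ∀ a, I.chi a (toC O G (el O d * i)) = X.κ a ⟨d, hd⟩ := by
      intro a
      rw [hXκ, map_mul, toC_el]
    have hκd' : ∀ a, I.chi a (toC O G (el O d⁻¹ * i)) = X.κ a (⟨d, hd⟩ : D)⁻¹ := by
      intro a
      rw [hXκ, map_mul, toC_el]
      rfl
    refine ⟨by rw [← hmd]; exact hm _, ?_, ?_⟩
    · have h3 := X.norm ⟨d, hd⟩
      rw [hc, hmd] at h3
      rw [Finset.sum_congr rfl fun a _ => by rw [hκd a, hκd' a], h3]
      congr 2
      refine Nat.card_congr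
        { toFun := fun c => ⟨((c : D) : G), (c : D).2, ?_⟩
          invFun := fun c => ⟨⟨c.1, c.2.1⟩, ?_⟩
          left_inv := fun c => rfl
          right_inv := fun c => rfl }
      · have h4 := Subgroup.mem_centralizer_singleton_iff.1 c.2
        exact congrArg Subtype.val h4
      · rw [Subgroup.mem_centralizer_singleton_iff]
        exact Subtype.ext c.2.2
    · intro a
      rw [hκd, hXd]
      by_cases ha : X.d a = 0
      · have h3 : ‖X.κ a ⟨d, hd⟩‖ ≤ ((0 : ℕ) : ℝ) :=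
          isChar_norm (X.isChar a) _ 0 (by rw [X.kone a, ha, Nat.cast_zero, mul_zero])
        rw [Nat.cast_zero] at h3
        rw [ha, Nat.cast_zero, norm_zero, mul_zero]
        exact h3
      · obtain ⟨b, rfl⟩ := hsurj a ha
        rw [hκ, norm_mul, Complex.norm_natCast, hΓd]
        have h3 : ‖X.κ a₀ ⟨d, hd⟩‖ = L.m := by
          have h4 := habs ⟨d, hd⟩
          rw [isChar_conj (X.isChar a₀), Complex.mul_conj, hmd] at h4
          have h5 : Complex.normSq (X.κ a₀ ⟨d, hd⟩) = (L.m : ℝ) ^ 2 := by exact_mod_cast h4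
          rw [Complex.normSq_eq_norm_sq] at h5
          exact (pow_left_inj₀ (norm_nonneg _) (Nat.cast_nonneg _) two_ne_zero).1 h5
        rw [h3]
        refine mul_le_mul_of_nonneg_left ?_ (Nat.cast_nonneg _)
        exact isChar_norm (ch_isChar J b) _ _ (chi_one J b)
  refine ⟨(key2 I₀).1, ?_, fun I => (key2 I).2.2⟩
  intro J
  have h3 := (key2 I₀).2.1
  have h4 := col_same O h2 I₀ d hord J L.j L.hj L.j L.hj
  have h5 : ∑ a, I₀.chi a (toC O G (el O d * i)) * I₀.chi a (toC O G (el O d⁻¹ * i)) =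
      (L.m : ℂ) ^ 2 * ∑ b, J.chi b (toC O (cent d) L.j) ^ 2 := by
    calc ∑ a, I₀.chi a (toC O G (el O d * i)) * I₀.chi a (toC O G (el O d⁻¹ * i))
        = ∑ a, (L.m : ℂ) ^ 2 * (I₀.chi a (toC O G (el O d * incl O _ L.j)) *
            I₀.chi a (toC O G (el O d⁻¹ * incl O _ L.j))) := by
          apply Finset.sum_congr rfl
          intro a _
          obtain ⟨h6, h7⟩ := loc_trace h2 hi hord hid L I₀ a
          rw [h6, h7]; ring
      _ = (L.m : ℂ) ^ 2 * ∑ a, I₀.chi a (toC O G (el O d * incl O _ L.j)) *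
            I₀.chi a (toC O G (el O d⁻¹ * incl O _ L.j)) := by rw [Finset.mul_sum]
      _ = _ := by
          rw [h4]
          congr 1
          apply Finset.sum_congr rfl
          intro b _
          ring
  have hm0 : (L.m : ℂ) ^ 2 ≠ 0 := by
    apply pow_ne_zero
    have := (key2 I₀).1.pos
    exact_mod_cast this.ne'
  exact mul_left_cancel₀ hm0 (h5.symm.trans h3)

end Pool.Agent.Helper36.NO
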