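import Pool.Agent.Helper32.NO.Defs
import Pool.Agent.Helper36.NB.Asm7

/-!
# The characters `κ_a` at a level
-/

set_option autoImplicit false
open scoped BigOperators MonoidAlgebra
open Classical

set_option linter.unusedSectionVars false

namespace Pool.Agent.Helper36.NO

open Pool.Agent.Helper36.NB Pool.Agent.Helper44.S3 Pool.Agent.Helper32.ND
open Pool.Agent.Helper32.NO

variable {O : ValuationSubring ℂ} {G : Type} [Group G] [Fintype G]

/-- The conjugation `u ↦ t⁻¹ u t` of `D`. -/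
noncomputable def tauL {D : Subgroup G} (t : G) (tD : ∀ u ∈ D, t⁻¹ * u * t ∈ D) : D →* D where
  toFun u := ⟨t⁻¹ * u * t, tD u u.2⟩
  map_one' := by apply Subtype.ext; simp
  map_mul' a b := by
    apply Subtype.ext
    change t⁻¹ * (a * b) * t = t⁻¹ * a * t * (t⁻¹ * b * t)
    group

/-- The data on `D`, without a defect class. -/
theorem exists_cd_fs (h2 : (2 : O) ∈ IsLocalRing.maximalIdeal O)
    (e : MonoidAlgebra O G) (he : e * e = e) (hec : ∀ a, a * e = e * a) (her : inv' e = e)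
    {D : Subgroup G} (hD2 : IsPGroup 2 D) (S : SimpleQuot (toK O G e)) (t : G)
    (tD : ∀ u ∈ D, t⁻¹ * u * t ∈ D) (tt : t * t ∈ D)
    (j : MonoidAlgebra O G) (hj : j * j = j)
    (hje : j * e = j) (hj1 : (S.ρ (toK O G j)).rank = 1)
    (i : MonoidAlgebra O G) (hi : i * i = i) (hie : i * e = i) (hiD : Cen D i)
    (hiψ : psi t i = i) (hlam : S.lam (toK O G i) ≠ 0)
    (L : ∀ u : D, Loc O i (u : G))
    (hfus : ∀ u v : D, ∀ g : G, g * (u : G) * g⁻¹ = v →
      el (resK O) g * incl (resK O) _ (toK O _ (L u).B) * el (resK O) g⁻¹ =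
        incl (resK O) _ (toK O _ (L v).B) → ∃ d ∈ D, d * (u : G) * d⁻¹ = v)
    (I : IrrData G) (hcD : ∑ a, I.chi a (toC O G j) ^ 2 = (Nat.card D : ℂ)) :
    ∃ X : CountData D (Fin I.r) (tauL t tD) ⟨t * t, tt⟩,
      (∀ a, I.chi a (toC O G j) = X.d a) ∧
      (∀ a (u : D), X.κ a u = I.chi a (el ℂ (u : G) * toC O G i)) ∧
      (∀ u : D, u ≠ 1 → X.m u = (L u).m) ∧
      ∀ a, (∑ g : G, I.ch a (g * g)) / (Nat.card G : ℂ) = X.fs a := by
  have hchar : CharP (resK O) 2 := resK_charP O h2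
  obtain ⟨bar, hbb, hbar⟩ := exists_bar I
  have hCi := toC_idem hi
  have hCiD := toC_cen hiD
  have hd : ∀ a, ∃ m : ℕ, I.chi a (toC O G j) = m := fun a => chi_idem I a _ (toC_idem hj)
  choose d hd using hd
  set m₁ := (S.ρ (toK O G i)).rank with hm₁
  have hk1 : ∀ a, I.chi a (toC O G i) = m₁ * d a := by
    intro a
    have := trace_rank O e he hec S j hj hje hj1 i hi hie (TraceFun.ofChi O I a)
    simp only [TraceFun.ofChi_apply] at this
    rw [this, ← hd]
  have hcard : (Nat.card D : ℂ) ≠ 0 := by exact_mod_cast Nat.card_pos.ne'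
  have hbd : ∀ a, d (bar a) = d a := by
    intro a
    have := bar_d_eq e he hec her S j hj hje hj1 I bar hbb hbar (by rw [hcD]; exact hcard) a
    rw [hd, hd] at this
    exact_mod_cast this
  -- the character κ
  let κ : Fin I.r → D → ℂ := fun a u => I.chi a (el ℂ (u : G) * toC O G i)
  have hκ1 : ∀ a, κ a 1 = m₁ * d a := by
    intro a
    change I.chi a (el ℂ ((1 : D) : G) * toC O G i) = _
    rw [Subgroup.coe_one, el_one, one_mul, hk1]
  have hκO : ∀ a (u : D), κ a u = I.chi a (toC O G (el O (u : G) * i)) := by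
    intro a u
    rw [map_mul, toC_el]
  have hinvi : inv' (toC O G i) = el ℂ t⁻¹ * toC O G i * el ℂ t := by
    have h := congrArg (toC O G) hiψ
    rw [psi_apply, map_mul, map_mul, toC_el, toC_el, toC_inv'] at h
    calc inv' (toC O G i) = (el ℂ t⁻¹ * el ℂ t) * inv' (toC O G i) * (el ℂ t⁻¹ * el ℂ t) := by
          rw [el_inv_mul_el, one_mul, mul_one]
      _ = el ℂ t⁻¹ * (el ℂ t * inv' (toC O G i) * el ℂ t⁻¹) * el ℂ t := by noncomm_ring
      _ = _ := by rw [h]
  have hbarκ : ∀ a (u : D), κ (bar a) u = κ a (tauL t tD u⁻¹) := by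
    intro a u
    change I.chi (bar a) (el ℂ (u : G) * toC O G i) =
      I.chi a (el ℂ ((tauL t tD u⁻¹ : D) : G) * toC O G i)
    rw [hbar, inv'_mul, inv'_el, hinvi]
    have h1 : ((tauL t tD u⁻¹ : D) : G) = t⁻¹ * (u : G)⁻¹ * t := rfl
    rw [h1, el_mul, el_mul]
    exact chi_shift I a t u _ (hCiD _ (tt))
  have hfsr : ∀ a, ∃ s : ℤ, (bar a = a → (s = 1 ∨ s = -1) ∧
      Twi (tauL t tD) ⟨t * t, tt⟩ s (κ a)) ∧ (bar a ≠ a → s = 0) ∧
      (∑ g : G, I.ch a (g * g)) / (Nat.card G : ℂ) = s := by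
    intro a
    by_cases hba : bar a = a
    · have hreal : ∀ g, I.ch a g⁻¹ = I.ch a g := by
        intro g
        have := hbar a (el ℂ g)
        rw [hba, inv'_el] at this
        exact this.symm
      obtain ⟨s, hs, hsum, htw⟩ := kappa_twi I D t (tauL t tD) (fun u => rfl)
        ⟨t * t, tt⟩ rfl (toC O G i) hCi hCiD
        (by
          have h := congrArg (toC O G) hiψ
          rw [psi_apply, map_mul, map_mul, toC_el, toC_el, toC_inv'] at h
          exact h) a hreal
      exact ⟨s, fun _ => ⟨hs, htw⟩, fun h => absurd hba h, hsum⟩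
    · refine ⟨0, fun h => absurd h hba, fun _ => rfl, ?_⟩
      rw [fs_nonreal I bar hbar a hba, zero_div, Int.cast_zero]
  choose fs hfs using hfsr
  have hord : ∀ u : D, ∃ n : ℕ, orderOf (u : G) = 2 ^ n := fun u => orderOf_two hD2 u.2
  have hiu : ∀ u : D, el O (u : G) * i = i * el O (u : G) := fun u => hiD u u.2
  have hnorm : ∀ u : D, ∃ n : ℕ, ∑ a, κ a u * κ a u⁻¹ = ((L u).m : ℂ) ^ 2 * (2 : ℂ) ^ n := by
    intro u
    obtain ⟨n, hn⟩ := loc_norm h2 hi (hord u) (hiu u) (L u) I
    refine ⟨n, ?_⟩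
    rw [← hn]
    apply Finset.sum_congr rfl
    intro a _
    rw [hκO, hκO]
    rfl
  choose c hc using hnorm
  have hsumsq : ∑ a, (d a) ^ 2 = Nat.card D := by
    have : ((∑ a, (d a) ^ 2 : ℕ) : ℂ) = Nat.card D := by
      rw [← hcD]
      push_cast
      apply Finset.sum_congr rfl
      intro a _
      rw [hd]
    exact_mod_cast this
  have hmodd : Odd m₁ := by
    rw [← Nat.not_even_iff_odd]
    intro hev
    apply hlam
    rw [SimpleQuot.lam_apply, trace_eq_rank', ← hm₁]
    · exact (CharP.cast_eq_zero_iff (resK O) 2 m₁).mpr hev.two_dvd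
    · rw [← map_mul, ← map_mul, hi]
  obtain ⟨nD, hnD⟩ := IsPGroup.iff_card.mp hD2
  refine ⟨{
    κ := κ
    d := d
    bar := bar
    fs := fs
    m := fun u => if u = 1 then m₁ else (L u).m
    c := fun u => if u = 1 then Nat.card D else 2 ^ c u
    isChar := fun a => kappa_char I D (toC O G i) hCi hCiD a
    orth := ?_
    norm := ?_
    cpow := ?_
    integral := ?_
    kone := ?_
    modd := ?_
    sumsq := hsumsq
    bar_bar := hbb
    bar_d := hbd
    bar_κ := hbarκ
    fs_real := fun a ha => (hfs a).1 ha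
    fs_nonreal := fun a ha => (hfs a).2.1 ha }, ?_, ?_, ?_, ?_⟩
  · intro u v huv
    have h1 := loc_orth h2 hi (hord u) (hord v) (hiu u) (hiu v) (L u) (L v) I (by
      intro g hg hgb
      obtain ⟨y, hy, hyu⟩ := hfus u v g hg hgb
      apply huv
      rw [isConj_iff]
      exact ⟨⟨y, hy⟩, Subtype.ext hyu⟩)
    rw [← h1]
    apply Finset.sum_congr rfl
    intro a _
    rw [hκO, hκO]
    rfl
  · intro u
    by_cases hu : u = 1
    · subst hu
      simp only [if_true, inv_one]
      rw [← hsumsq]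
      push_cast
      rw [Finset.mul_sum]
      apply Finset.sum_congr rfl
      intro a _
      rw [hκ1]; ring
    · simp only [hu, if_false]
      rw [hc u]
      push_cast
      rfl
  · intro u
    by_cases hu : u = 1
    · simp only [hu, if_true]; exact ⟨nD, hnD⟩
    · simp only [hu, if_false]; exact ⟨c u, rfl⟩
  · intro a u
    by_cases hu : u = 1
    · subst hu
      refine ⟨d a, ?_, ?_⟩
      · exact isIntegral_algebraMap (R := ℤ) (A := ℂ) (x := (d a : ℤ))
      · simp only [if_true]; exact hκ1 a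
    · refine ⟨I.chi a (toC O G (el O (u : G) * incl O _ (L u).j)), ?_, ?_⟩
      · rw [map_mul, toC_el, toC_incl]
        apply kappa_integral I (incl ℂ _ (toC O _ (L u).j)) _ (u : G)
        · exact incl_cent_comm _ _
        · rw [← map_mul, ← map_mul, (L u).hj]
      · simp only [hu, if_false]
        rw [hκO]
        exact (loc_trace h2 hi (hord u) (hiu u) (L u) I a).1
  · intro a
    simp only [if_true]
    exact hκ1 a
  · simp only [if_true]
    exact hmodd
  · exact hd
  · intro a u; rfl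
  · intro u hu
    simp only [hu, if_false]
  · intro a; exact (hfs a).2.2

/-- The data on `D`, without a defect class. -/
theorem exists_cd (h2 : (2 : O) ∈ IsLocalRing.maximalIdeal O)
    (e : MonoidAlgebra O G) (he : e * e = e) (hec : ∀ a, a * e = e * a) (her : inv' e = e)
    {D : Subgroup G} (hD2 : IsPGroup 2 D) (S : SimpleQuot (toK O G e)) (t : G)
    (tD : ∀ u ∈ D, t⁻¹ * u * t ∈ D) (tt : t * t ∈ D)
    (j : MonoidAlgebra O G) (hj : j * j = j)
    (hje : j * e = j) (hj1 : (S.ρ (toK O G j)).rank = 1)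
    (i : MonoidAlgebra O G) (hi : i * i = i) (hie : i * e = i) (hiD : Cen D i)
    (hiψ : psi t i = i) (hlam : S.lam (toK O G i) ≠ 0)
    (L : ∀ u : D, Loc O i (u : G))
    (hfus : ∀ u v : D, ∀ g : G, g * (u : G) * g⁻¹ = v →
      el (resK O) g * incl (resK O) _ (toK O _ (L u).B) * el (resK O) g⁻¹ =
        incl (resK O) _ (toK O _ (L v).B) → ∃ d ∈ D, d * (u : G) * d⁻¹ = v)
    (I : IrrData G) (hcD : ∑ a, I.chi a (toC O G j) ^ 2 = (Nat.card D : ℂ)) :
    ∃ X : CountData D (Fin I.r) (tauL t tD) ⟨t * t, tt⟩,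
      (∀ a, I.chi a (toC O G j) = X.d a) ∧
      (∀ a (u : D), X.κ a u = I.chi a (el ℂ (u : G) * toC O G i)) ∧
      ∀ u : D, u ≠ 1 → X.m u = (L u).m := by
  obtain ⟨X, h3, h4, h5, -⟩ := exists_cd_fs h2 e he hec her hD2 S t tD tt j hj hje hj1 i hi hie
    hiD hiψ hlam L hfus I hcD
  exact ⟨X, h3, h4, h5⟩

end Pool.Agent.Helper36.NO
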