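import Pool.Agent.Helper32.NO.OrbW
import Pool.Agent.Helper63.NO.Wc
import Pool.Agent.Helper36.NB.E0
import Pool.Agent.Helper36.NB.C4

/-!
# P7: the base of the induction (trivial defect group)
-/

set_option autoImplicit false
open scoped BigOperators MonoidAlgebra
open Classical

namespace Pool.Agent.Helper36.NO

open Pool.Agent.Helper36.NB Pool.Agent.Helper44.S3 Pool.Agent.Helper32.ND
open Pool.Agent.Helper32.NO

/-- An idempotent of `ℂ[G]` with coefficient `0` at `1` is zero. -/
theorem idem_coeff_one {G : Type} [Group G] [Fintype G] (y : MonoidAlgebra ℂ G) (hy : y * y = y)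
    (h0 : y.coeff 1 = 0) : y = 0 := by
  obtain ⟨I⟩ := exists_irrData G
  have h1 := E0aux.regular I y
  rw [h0, mul_zero] at h1
  choose m hm using fun a => chi_idem I a y hy
  have h2 : ∑ a, I.d a * m a = 0 := by
    have h3 : ((∑ a, I.d a * m a : ℕ) : ℂ) = 0 := by
      push_cast
      rw [← h1]
      exact Finset.sum_congr rfl fun a _ => by rw [hm]
    exact_mod_cast h3
  apply I.equiv.injective
  rw [map_zero]
  funext a
  rw [Finset.sum_eq_zero_iff] at h2
  have h4 := h2 a (Finset.mem_univ a)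
  have h5 : m a = 0 := by
    rcases Nat.mul_eq_zero.1 h4 with h | h
    · exact absurd h (I.pos a).ne'
    · exact h
  apply C4aux.idem_trace_zero
  · rw [← Pi.mul_apply, ← map_mul, hy]
  · have h6 := hm a
    rw [h5] at h6
    simpa [IrrData.chi] using h6

/-- The sum over the centraliser annihilates a central idempotent if the sum of the coefficients
over the centraliser vanishes. -/
theorem cset_sum_zero {O : ValuationSubring ℂ} {G : Type} [Group G] [Fintype G]
    {e : MonoidAlgebra O G} (hee : e * e = e) (hec : ∀ a, a * e = e * a) (t : G)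
    (h0 : ∑ c ∈ cset t, ((e.coeff c : O) : ℂ) = 0) :
    e * ∑ c ∈ cset t, el O c = 0 := by
  have hcl : ∀ c ∈ cset t, ∑ c' ∈ cset t, el ℂ (c * c') = ∑ c' ∈ cset t, el ℂ c' := by
    intro c hc
    rw [mem_cset] at hc
    refine Finset.sum_bij (fun s _ => c * s) ?_ ?_ ?_ ?_
    · intro s hs
      rw [mem_cset] at hs ⊢
      rw [mul_assoc, hs, ← mul_assoc, hc, mul_assoc]
    · intro s _ s' _ h
      exact mul_left_cancel h
    · intro s hs
      rw [mem_cset] at hs
      refine ⟨c⁻¹ * s, ?_, by group⟩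
      rw [mem_cset]
      have h1 : c⁻¹ * t = t * c⁻¹ := by
        have : t * c = c * t := hc.symm
        calc c⁻¹ * t = c⁻¹ * (t * c) * c⁻¹ := by group
          _ = c⁻¹ * (c * t) * c⁻¹ := by rw [this]
          _ = t * c⁻¹ := by group
      rw [mul_assoc, hs, ← mul_assoc, h1, mul_assoc]
    · intro s _
      rfl
  have hN : ((cset t).card : ℂ) ≠ 0 := by
    rw [Nat.cast_ne_zero, Finset.card_ne_zero]
    exact ⟨1, by rw [mem_cset]; group⟩
  have hσ : (∑ c ∈ cset t, el ℂ c) * (∑ c ∈ cset t, el ℂ c) =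
      ((cset t).card : ℂ) • ∑ c ∈ cset t, el ℂ c := by
    have h1 : ∀ c ∈ cset t, el ℂ c * ∑ c' ∈ cset t, el ℂ c' = ∑ c' ∈ cset t, el ℂ c' := by
      intro c hc
      rw [Finset.mul_sum, ← hcl c hc]
      exact Finset.sum_congr rfl fun c' _ => by rw [el_mul]
    rw [Finset.sum_mul, Finset.sum_congr rfl h1, Finset.sum_const, ← Nat.cast_smul_eq_nsmul ℂ]
  have hy : (toC O G e * (((cset t).card : ℂ)⁻¹ • ∑ c ∈ cset t, el ℂ c)) *
      (toC O G e * (((cset t).card : ℂ)⁻¹ • ∑ c ∈ cset t, el ℂ c)) =
      toC O G e * (((cset t).card : ℂ)⁻¹ • ∑ c ∈ cset t, el ℂ c) := by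
    have hcc : ∀ a : MonoidAlgebra ℂ G, a * toC O G e = toC O G e * a := by
      intro a
      induction a using MonoidAlgebra.induction_linear with
      | zero => rw [zero_mul, mul_zero]
      | add x y hx hy => rw [add_mul, mul_add, hx, hy]
      | single g r =>
        have h1 : (MonoidAlgebra.single g r : MonoidAlgebra ℂ G) = r • el ℂ g := by
          rw [el, MonoidAlgebra.smul_single, smul_eq_mul, mul_one]
        rw [h1, smul_mul_assoc, mul_smul_comm, ← toC_el O g, ← map_mul, hec, map_mul]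
    rw [mul_assoc, ← mul_assoc _ (toC O G e), hcc, mul_assoc, ← mul_assoc (toC O G e), ← map_mul,
      hee, smul_mul_smul_comm, hσ, smul_smul, mul_assoc, inv_mul_cancel₀ hN, mul_one]
  have h1 : (toC O G e * (((cset t).card : ℂ)⁻¹ • ∑ c ∈ cset t, el ℂ c)).coeff 1 = 0 := by
    rw [mul_smul_comm, MonoidAlgebra.coeff_smul, Finsupp.smul_apply, Finset.mul_sum,
      MonoidAlgebra.coeff_sum, Finsupp.finsetSum_apply]
    rw [Finset.sum_congr rfl fun c _ => by rw [mul_el_coeff, one_mul, toC_apply]]
    have h2 : ∑ c ∈ cset t, ((e.coeff c⁻¹ : O) : ℂ) = ∑ c ∈ cset t, ((e.coeff c : O) : ℂ) := by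
      refine Finset.sum_bij (fun c _ => c⁻¹) ?_ ?_ ?_ ?_
      · intro c hc
        rw [mem_cset] at hc ⊢
        calc c⁻¹ * t = c⁻¹ * (t * c) * c⁻¹ := by group
          _ = c⁻¹ * (c * t) * c⁻¹ := by rw [hc]
          _ = t * c⁻¹ := by group
      · intro c _ c' _ h
        exact inv_injective h
      · intro c hc
        refine ⟨c⁻¹, ?_, by group⟩
        rw [mem_cset] at hc ⊢
        calc c⁻¹ * t = c⁻¹ * (t * c) * c⁻¹ := by group
          _ = c⁻¹ * (c * t) * c⁻¹ := by rw [hc]
          _ = t * c⁻¹ := by group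
      · intro c _
        rfl
    rw [h2, h0, smul_zero]
  have h2 := idem_coeff_one _ hy h1
  rw [mul_smul_comm] at h2
  have h3 : toC O G e * ∑ c ∈ cset t, el ℂ c = 0 := by
    have h4 := congrArg (fun x => ((cset t).card : ℂ) • x) h2
    simpa [smul_smul, mul_inv_cancel₀ hN] using h4
  apply toC_injective O
  rw [map_mul, map_sum, map_zero, ← h3]
  congr 1
  exact Finset.sum_congr rfl fun c _ => toC_el O c

/-- The sums of the coefficients over the elements conjugating `t` to `v` vanish. -/
theorem tr_sum_zero {k : Type} [Field k] {G : Type} [Group G] [Fintype G] {t : G}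
    {q : MonoidAlgebra k G} (hσ : q * ∑ c ∈ cset t, el k c = 0) (v : G) :
    ∑ x ∈ tr v t, q.coeff x = 0 := by
  rcases (tr v t).eq_empty_or_nonempty with h | ⟨g0, h0⟩
  · rw [h, Finset.sum_empty]
  · rw [sum_tr _ h0]
    have h1 := congrArg (fun x => x.coeff g0) hσ
    simp only [Finset.mul_sum] at h1
    rw [MonoidAlgebra.coeff_sum, Finsupp.finsetSum_apply] at h1
    rw [Finset.sum_congr rfl fun c _ => by rw [mul_el_coeff]] at h1
    rw [← show (0 : MonoidAlgebra k G).coeff g0 = 0 from rfl, ← h1]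
    refine Finset.sum_bij (fun c _ => c⁻¹) ?_ ?_ ?_ ?_
    · intro c hc
      rw [mem_cset] at hc ⊢
      calc c⁻¹ * t = c⁻¹ * (t * c) * c⁻¹ := by group
        _ = c⁻¹ * (c * t) * c⁻¹ := by rw [hc]
        _ = t * c⁻¹ := by group
    · intro c _ c' _ h
      exact inv_injective h
    · intro c hc
      refine ⟨c⁻¹, ?_, by group⟩
      rw [mem_cset] at hc ⊢
      calc c⁻¹ * t = c⁻¹ * (t * c) * c⁻¹ := by group
        _ = c⁻¹ * (c * t) * c⁻¹ := by rw [hc]
        _ = t * c⁻¹ := by group
    · intro c _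
      rw [inv_inv]

/-- A sum over an involution in characteristic two. -/
theorem sum_inv_fixed {k : Type} [Field k] [CharP k 2] {X : Type} [Fintype X] (σ : X → X)
    (hσ : ∀ x, σ (σ x) = x) (F : X → k) (hF : ∀ x, F (σ x) = F x) :
    ∑ x, F x = ∑ x ∈ Finset.univ.filter (fun x => σ x = x), F x := by
  rw [← Finset.sum_filter_add_sum_filter_not Finset.univ (fun x : X => σ x = x) F]
  have h : ∑ x ∈ Finset.univ.filter (fun x : X => ¬ σ x = x), F x = 0 := by
    refine Finset.sum_involution (fun x _ => σ x) ?_ ?_ ?_ ?_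
    · intro x _
      rw [hF]
      exact CharTwo.add_self_eq_zero _
    · intro x hx _
      exact (Finset.mem_filter.1 hx).2
    · intro x hx
      rw [Finset.mem_filter] at hx ⊢
      refine ⟨Finset.mem_univ _, ?_⟩
      rw [hσ]
      exact fun h => hx.2 h.symm
    · intro x _
      exact hσ x
  rw [h, add_zero]

/-- The coefficients of `q` at the elements inverted by `t` vanish. -/
theorem coeff_zero {k : Type} [Field k] [CharP k 2] {G : Type} [Group G] [Fintype G] {t : G}
    (htt : t * t = 1) {q : MonoidAlgebra k G} (hq : q * q = q) (hqt : psi t q = q)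
    (hσ : q * ∑ c ∈ cset t, el k c = 0) (v : G) (hv : v * v = 1) : q.coeff (v * t) = 0 := by
  have hti : t⁻¹ = t := inv_eq_of_mul_eq_one_left htt
  have hvi : v⁻¹ = v := inv_eq_of_mul_eq_one_left hv
  have h1 : q * el k t * inv' q = q * el k t := by
    have h2 : el k t * inv' q = q * el k t := by
      have h3 := hqt
      rw [psi_apply] at h3
      nth_rewrite 2 [← h3]
      rw [mul_assoc (el k t * inv' q), ← el_mul, inv_mul_cancel, el_one, mul_one]
    rw [mul_assoc, h2, ← mul_assoc, hq]
  have h2 : (q * el k t).coeff v = q.coeff (v * t) := by rw [mul_el_coeff, hti]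
  rw [← h2, ← h1, mul_assoc, coeff_mul_sum']
  have h3 : ∀ x : G, q.coeff x * (el k t * inv' q).coeff (x⁻¹ * v) =
      q.coeff x * q.coeff (v * x * t) := by
    intro x
    rw [el_mul_coeff, inv'_coeff, hti]
    congr 2
    rw [mul_inv_rev, mul_inv_rev, hti, hvi, inv_inv]
  rw [Finset.sum_congr rfl fun x _ => h3 x,
    sum_inv_fixed (fun x => v * x * t) ?_ (fun x => q.coeff x * q.coeff (v * x * t)) ?_]
  · have h4 : Finset.univ.filter (fun x : G => v * x * t = x) = tr v t := by
      ext x
      rw [Finset.mem_filter, mem_tr]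
      constructor
      · rintro ⟨-, h⟩
        calc x * t = v * x * t * t := by rw [h]
          _ = v * x * (t * t) := by group
          _ = v * x := by rw [htt, mul_one]
      · intro h
        refine ⟨Finset.mem_univ _, ?_⟩
        calc v * x * t = v * (x * t) := by group
          _ = v * (v * x) := by rw [h]
          _ = (v * v) * x := by group
          _ = x := by rw [hv, one_mul]
    have h5 : ∑ x ∈ Finset.univ.filter (fun x : G => v * x * t = x),
        q.coeff x * q.coeff (v * x * t) = ∑ x ∈ tr v t, q.coeff x ^ 2 := by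
      rw [← h4]
      refine Finset.sum_congr rfl fun x hx => ?_
      rw [(Finset.mem_filter.1 hx).2, sq]
    rw [h5, ← CharTwo.sum_sq, tr_sum_zero hσ, zero_pow two_ne_zero]
  · intro x
    change v * (v * x * t) * t = x
    calc v * (v * x * t) * t = (v * v) * x * (t * t) := by group
      _ = x := by rw [hv, htt, one_mul, mul_one]
  · intro x
    change q.coeff (v * x * t) * q.coeff (v * (v * x * t) * t) = _
    have h4 : v * (v * x * t) * t = x := by
      calc v * (v * x * t) * t = (v * v) * x * (t * t) := by group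
        _ = x := by rw [hv, htt, one_mul, mul_one]
    rw [h4, mul_comm]

theorem lam_zero {k : Type} [Field k] [CharP k 2] {G : Type} [Group G] [Fintype G] {t : G}
    (htt : t * t = 1) {q : MonoidAlgebra k G} (hq : q * q = q) (hqt : psi t q = q)
    (hσ : q * ∑ c ∈ cset t, el k c = 0) (lam : MonoidAlgebra k G →ₗ[k] k)
    (hl : ∀ a, lam (inv' a) = lam a) (hlc : ∀ a b, lam (a * b) = lam (b * a)) : lam q = 0 := by
  have hti : t⁻¹ = t := inv_eq_of_mul_eq_one_left htt
  have hexp : lam q = ∑ g : G, q.coeff g * lam (el k g) := by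
    have h1 : q = ∑ g : G, q.coeff g • el k g := by
      ext x
      rw [MonoidAlgebra.coeff_sum, Finsupp.finsetSum_apply]
      have h1 : ∀ g, (q.coeff g • el k g).coeff x = if g = x then q.coeff g else 0 := by
        intro g
        rw [MonoidAlgebra.coeff_smul, Finsupp.smul_apply, el_coeff, smul_eq_mul]
        split_ifs with h2
        · rw [mul_one]
        · rw [mul_zero]
      rw [Finset.sum_congr rfl fun g _ => h1 g, Finset.sum_ite_eq', if_pos (Finset.mem_univ _)]
    nth_rewrite 1 [h1]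
    rw [map_sum]
    exact Finset.sum_congr rfl fun g _ => by rw [map_smul, smul_eq_mul]
  have hqg : ∀ g, q.coeff (t * g⁻¹ * t⁻¹) = q.coeff g := by
    intro g
    nth_rewrite 2 [← hqt]
    rw [psi_apply, mul_el_coeff, el_mul_coeff, inv'_coeff]
    congr 1
    rw [inv_inv, mul_inv_rev, mul_inv_rev, inv_inv, hti]
  have hlg : ∀ g, lam (el k (t * g⁻¹ * t⁻¹)) = lam (el k g) := by
    intro g
    rw [el_mul, el_mul, hlc, ← mul_assoc, ← el_mul, inv_mul_cancel, el_one, one_mul, ← inv'_el, hl]
  rw [hexp, sum_inv_fixed (fun g => t * g⁻¹ * t⁻¹) ?_ _ ?_]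
  · apply Finset.sum_eq_zero
    intro g hg
    have h1 : t * g⁻¹ * t⁻¹ = g := (Finset.mem_filter.1 hg).2
    have h2 : (g * t) * (g * t) = 1 := by
      calc (g * t) * (g * t) = (t * g⁻¹ * t⁻¹ * t) * (g * t) := by rw [h1]
        _ = t * t := by group
        _ = 1 := htt
    have h3 := coeff_zero htt hq hqt hσ (g * t) h2
    rw [mul_assoc, htt, mul_one] at h3
    rw [h3, zero_mul]
  · intro g
    change t * (t * g⁻¹ * t⁻¹)⁻¹ * t⁻¹ = g
    calc t * (t * g⁻¹ * t⁻¹)⁻¹ * t⁻¹ = (t * t) * g * (t * t)⁻¹ := by group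
      _ = g := by rw [htt, one_mul, inv_one, mul_one]
  · intro g
    change q.coeff (t * g⁻¹ * t⁻¹) * lam (el k (t * g⁻¹ * t⁻¹)) = _
    rw [hqg, hlg]

/-- P7: the base `D = 1` -/
theorem base {O : ValuationSubring ℂ} {G : Type} [Group G] [Fintype G]
    (h2 : (2 : O) ∈ IsLocalRing.maximalIdeal O) {D : Subgroup G} {t : G}
    {e : MonoidAlgebra O G} {S : SimpleQuot (toK O G e)} {q : MonoidAlgebra (resK O) G}
    (hL : Lev O D t e S q) (hD : D = ⊥) (j : MonoidAlgebra O G) (hj : j * j = j)
    (hje : j * e = j) (hj1 : (S.ρ (toK O G j)).rank = 1) (w : G → ℕ) (hw : ClassFun w) (M : ℕ)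
    (hM : wsum O w j = M) : w t ≤ M := by
  have hchar : CharP (resK O) 2 := resK_charP O h2
  have htt : t * t = 1 := by
    have h := hL.tt
    rw [hD, Subgroup.mem_bot] at h
    exact h
  -- the two parts of `w`
  obtain ⟨w1, hw1⟩ : ∃ w1 : G → ℕ, w1 = fun v => if IsConj t v then 1 else 0 := ⟨_, rfl⟩
  obtain ⟨w2, hw2⟩ : ∃ w2 : G → ℕ, w2 = fun v => if IsConj t v then 0 else w v := ⟨_, rfl⟩
  have hcj : ∀ g v : G, IsConj t (g * v * g⁻¹) ↔ IsConj t v := by
    intro g v
    have h1 : IsConj v (g * v * g⁻¹) := isConj_iff.2 ⟨g, rfl⟩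
    exact ⟨fun h => h.trans h1.symm, fun h => h.trans h1⟩
  have hc1 : ClassFun w1 := by
    intro g v
    rw [hw1]
    simp only [hcj]
  have hc2 : ClassFun w2 := by
    intro g v
    rw [hw2]
    simp only [hcj]
    rw [hw]
  have hwt : ∀ v, IsConj t v → w v = w t := by
    intro v hv
    obtain ⟨c, hc⟩ := isConj_iff.1 hv
    rw [← hc, hw]
  have hsplit : ∀ v, w v = w t * w1 v + w2 v := by
    intro v
    rw [hw1, hw2]
    by_cases h : IsConj t v
    · simp only [h, if_true]
      rw [mul_one, add_zero, hwt v h]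
    · simp only [h, if_false]
      rw [mul_zero, zero_add]
  obtain ⟨M1, hM1⟩ := Pool.Agent.Helper63.NO.exists_nat O w1 hc1 j hj
  obtain ⟨M2, hM2⟩ := Pool.Agent.Helper63.NO.exists_nat O w2 hc2 j hj
  have hsum : wsum O w j = w t * wsum O w1 j + wsum O w2 j := by
    unfold wsum
    rw [Finset.mul_sum, ← Finset.sum_add_distrib]
    refine Finset.sum_congr rfl fun h _ => ?_
    have h1 : wc w h = w t * wc w1 h + wc w2 h := by
      unfold wc
      rw [Finset.mul_sum, ← Finset.sum_add_distrib]
      refine Finset.sum_congr rfl fun v _ => ?_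
      split_ifs
      · exact hsplit v
      · simp
    rw [h1]
    push_cast
    ring
  have hMM : M = w t * M1 + M2 := by
    rw [hM, hM1, hM2] at hsum
    exact_mod_cast hsum
  have hM1' : M1 ≠ 0 := by
    intro h0
    rw [h0, Nat.cast_zero] at hM1
    -- the sum over the centraliser
    obtain ⟨T, hT⟩ := Pool.Agent.Helper63.NO.exists_wT O w1 hc1
    have h1 := trace_rank O e hL.ee hL.ec S j hj hje hj1 e hL.ee hL.ee T
    rw [hT, hT, hM1, mul_zero] at h1
    have h3 : wsum O w1 e = ∑ v : G, if IsConj t v then ∑ c ∈ cset v, ((e.coeff c : O) : ℂ)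
        else 0 := by
      unfold wsum wc
      simp only [Nat.cast_sum, Finset.mul_sum]
      rw [Finset.sum_comm]
      refine Finset.sum_congr rfl fun v _ => ?_
      by_cases hv : IsConj t v
      · rw [if_pos hv, hw1]
        simp only [hv, if_true]
        unfold cset
        rw [Finset.sum_filter]
        refine Finset.sum_congr rfl fun h _ => ?_
        by_cases hh : v * h = h * v
        · rw [if_pos hh, if_pos hh.symm]; simp
        · rw [if_neg hh, if_neg (fun h' => hh h'.symm)]; simp
      · rw [if_neg hv, hw1]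
        simp only [hv, if_false]
        simp
    have hecl : ∀ g v : G, ((e.coeff (g * v * g⁻¹) : O) : ℂ) = ((e.coeff v : O) : ℂ) := by
      intro g v
      have h4 := congrArg (fun x => x.coeff (g * v)) (hL.ec (el O g))
      simp only [el_mul_coeff, mul_el_coeff] at h4
      rw [← h4]
      congr 2
      group
    have h4 : (Nat.card G : ℂ) * ∑ c ∈ cset t, ((e.coeff c : O) : ℂ) = 0 := by
      have h5 := sum_conj_class (fun v => ∑ c ∈ cset v, ((e.coeff c : O) : ℂ)) t
      rw [← h3, h1, mul_zero] at h5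
      have h6 : ∀ g : G, ∑ c ∈ cset (g⁻¹ * t * g), ((e.coeff c : O) : ℂ) =
          ∑ c ∈ cset t, ((e.coeff c : O) : ℂ) := by
        intro g
        have h7 := sum_cset_conj (fun v => ((e.coeff v : O) : ℂ)) hecl t g⁻¹
        rw [inv_inv] at h7
        exact h7
      rw [Finset.sum_congr rfl fun g _ => h6 g, Finset.sum_const, Finset.card_univ,
        nsmul_eq_mul, ← Nat.card_eq_fintype_card] at h5
      exact h5
    have hG0 : (Nat.card G : ℂ) ≠ 0 := by exact_mod_cast Nat.card_pos.ne'
    have h5 := (mul_eq_zero.1 h4).resolve_left hG0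
    have h6 := cset_sum_zero hL.ee hL.ec t h5
    have h7 : q * ∑ c ∈ cset t, el (resK O) c = 0 := by
      have h8 := congrArg (toK O G) h6
      rw [map_mul, map_sum, map_zero, Finset.sum_congr rfl fun c _ => toK_el O c] at h8
      rw [← hL.qe, mul_assoc, h8, mul_zero]
    exact hL.lam (lam_zero htt hL.qq hL.qt h7 S.lam
      (fun a => trace_inv _ (by rw [← toK_inv', hL.er]) S a) S.lam_comm)
  rw [hMM]
  calc w t = w t * 1 := (mul_one _).symm
    _ ≤ w t * M1 := Nat.mul_le_mul_left _ (Nat.one_le_iff_ne_zero.2 hM1')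
    _ ≤ _ := Nat.le_add_right _ _

end Pool.Agent.Helper36.NO
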